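import Mathlib
import Pool.Agent.K1H22.SR.Stm
import Pool.Agent.K1H22.SR.Stm2
import Pool.Agent.K1H22.SR.Stm3
import Pool.Agent.K1H22.SR.Free2
import Pool.Agent.K1H22.SR.VFree2
import Pool.Agent.K1H22.SR.Fin3
import Pool.Agent.K1H68.SR.Dyer
import Pool.Agent.K1H90.SR2.Sub1
import Pool.Agent.K1H7.SR2.One
import Pool.Agent.K1H78.SR2.Elim
import Pool.Agent.K1H26.SR2.LFP
import Pool.Agent.K1H52.SR2.Unit
import Pool.Agent.K1H72.SR2.PRODZ
import Pool.Agent.K1H59.SR2.Ext
import Pool.Agent.K1H75.SR2.Leti
import Pool.Agent.K1H96.SR2.Null
import Pool.Agent.K1H83.SR2.Fix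
import Pool.Agent.K1H38.SR2.Slope2
import Pool.Agent.K1H1.SR2.Cos2
import Pool.Agent.K1H91.SG.Sg
import Pool.Agent.K1H59.SR2.Main3
import Pool.Agent.K1H38.SR2.Add
import Pool.Agent.K1H22.SR.Stm4
import Pool.Agent.K1H22.SR.Fin4
import Pool.Agent.K1H38.SR2.Ql1
import Pool.Agent.K1H22.SR.Main4

/-!
# The reflection lengths of the powers of an element are eventually quasi-linear

Let `𝒯` be the least class of groups which contains the trivial group and is closed under products
with `ℤ`, free products of finitely many groups, subgroups and finite extensions. Let `(W, S)` be a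
Coxeter system of finite rank whose Coxeter diagram is a disjoint union of parts such that the
standard parabolic subgroup of every part is in `𝒯`. Then for every `w` in `W` the sequence `rl(w^n)`
is eventually quasi-linear: there are `P ≥ 1` and `e` with `rl(w^(n+P)) = rl(w^n) + e` for all large
`n`. In particular the stable reflection length `lim rl(w^n) / n` is the rational number `e / P`.

Proof. By the theorem of Dyer (proved here for arbitrary words) `rl` of a word is the least number of
letters whose deletion gives a word for `1`; hence `rl` is additive over the parts, and for a word `ω`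
with letters in one part the pairs (number of periods, number of deletions) of the deletions in the
powers of `ω` which give `1` are the weights of the closed paths with trivial label in a finite graph
with labels in the parabolic subgroup. Say that a group has the semilinear property if in every finite
graph with labels in the group and weights in a finitely generated commutative monoid the weights of
the paths with trivial label between two vertices form a semilinear set. The trivial group has it
(Parikh), and it passes to products with `ℤ` (preimages of semilinear sets), to subgroups, to finite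
extensions (coset graphs) and to free products: a path with trivial label in a free product is built
from paths with trivial label in the factors by insertions, so the weights are the least solution of a
system of equations with semilinear right-hand sides, and such solutions are semilinear (elimination
of the variables). So `rl(w^n)` is the lower boundary of a semilinear set of pairs, and it is
subadditive; such a sequence is eventually quasi-linear.
-/

set_option autoImplicit false

namespace Pool.Agent.Results.MP_60edde_al.QuasiLinear

open Filter Topology Pool.Agent.K1H22.SR2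

/-- The least class of groups which contains the trivial group and is closed under products with
the infinite cyclic group, free products of finitely many groups, subgroups and finite
extensions (groups with a subgroup of finite index in the class). -/
inductive Tree : (G : Type) → Group G → Prop
  | unit : Tree Unit inferInstance
  | prod {G : Type} {hG : Group G} : Tree G hG → Tree (G × Multiplicative ℤ) inferInstance
  | free {I : Type} {K : I → Type} {hK : ∀ i, Group (K i)} : Finite I →
      (∀ i, Tree (K i) (hK i)) → Tree (Monoid.CoprodI K) inferInstance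
  | sub {H G : Type} {hH : Group H} {hG : Group G} (φ : H →* G) : Function.Injective φ →
      Tree G hG → Tree H hH
  | ext {G H : Type} {hG : Group G} {hH : Group H} (φ : G →* H) : Function.Injective φ →
      φ.range.FiniteIndex → Tree G hG → Tree H hH

/-- The reflection length of `w`: the least length of a list of reflections (conjugates of the simple
reflections) with product `w`. -/
noncomputable def reflectionLength {B W : Type} [Group W] {M : CoxeterMatrix B}
    (cs : CoxeterSystem M W) (w : W) : ℕ :=
  sInf {n : ℕ | ∃ l : List W, l.length = n ∧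
    (∀ t ∈ l, ∃ (g : W) (i : B), t = g * cs.simple i * g⁻¹) ∧ l.prod = w}

theorem lfp : S_LFP :=
  Pool.Agent.K1H26.SR2.t_LFP Pool.Agent.K1H90.SR2.t_SUB1 Pool.Agent.K1H7.SR2.t_ONE
    Pool.Agent.K1H78.SR2.t_ELIM

theorem unit' : S_UNIT := Pool.Agent.K1H52.SR2.t_UNIT lfp

theorem free' : S_FREE :=
  t_FREE unit' Pool.Agent.K1H59.SR2.t_EXT Pool.Agent.K1H75.SR2.t_LETI Pool.Agent.K1H96.SR2.t_NUL
    (Pool.Agent.K1H83.SR2.t_FIX lfp)

theorem Tree.slp {G : Type} {hG : Group G} (h : Tree G hG) : SLP G := by
  induction h with
  | unit => exact unit'
  | prod _ ih => exact Pool.Agent.K1H72.SR2.t_PRODZ _ ih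
  | free hI _ ih => exact free' _ _ ih
  | sub φ h1 _ ih => exact Pool.Agent.K1H91.SG.t_SG _ _ φ h1 ih
  | ext φ h1 h2 _ ih => exact Pool.Agent.K1H59.SR2.t_EXT _ _ φ h1 h2 ih

theorem Tree.equiv {G H : Type} {hG : Group G} {hH : Group H} (e : G ≃* H)
    (h : Tree G hG) : Tree H hH :=
  Tree.sub (e.symm : H →* G) e.symm.injective h

theorem Tree.freeGroup (X : Type) [Finite X] : Tree (FreeGroup X) inferInstance := by
  have h1 : Tree (Multiplicative ℤ) inferInstance :=
    Tree.equiv (G := Unit × Multiplicative ℤ) MulEquiv.uniqueProd (Tree.prod Tree.unit)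
  have h2 : Tree (FreeGroup Unit) inferInstance :=
    Tree.equiv (FreeGroup.mulEquivIntOfUnique (α := Unit)).symm h1
  exact Tree.equiv (freeGroupEquivCoprodI (ι := X)).symm
    (Tree.free (I := X) (K := fun _ => FreeGroup Unit) inferInstance (fun _ => h2))

/-- The finitely generated virtually free groups are in the class. -/
theorem Tree.of_virtually_free {W : Type} [hW : Group W] [Group.FG W]
    (h : ∃ F : Subgroup W, F.FiniteIndex ∧ IsFreeGroup F) : Tree W hW := by
  obtain ⟨F, hF, hfree⟩ := h
  have h1 : Group.FG F := Subgroup.fg_of_index_ne_zero F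
  have e : F ≃* FreeGroup (IsFreeGroup.Generators F) := IsFreeGroup.toFreeGroup F
  have h2 : Group.FG (FreeGroup (IsFreeGroup.Generators F)) :=
    Group.fg_of_surjective (f := e.toMonoidHom) e.surjective
  have h3 : Finite (IsFreeGroup.Generators F) := finite_of_fg _
  refine Tree.ext F.subtype F.subtype_injective ?_ (Tree.equiv e.symm (Tree.freeGroup _))
  rw [Subgroup.range_subtype]
  exact hF

/-- Let `c` be a partition of the simple reflections of a Coxeter system of finite rank such that
those in different parts commute (`M b b' = 2`), and such that the subgroup generated by the simple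
reflections of every part is in the class `Tree`. Then for every element `w` there are `P ≥ 1`, `e`
and `N` with `rl(w^(n+P)) = rl(w^n) + e` for all `n ≥ N`, and `rl(w^n) / n` converges to the rational
number `e / P`. -/
theorem result {B W I : Type} [Finite B] [Finite I] [Group W] {M : CoxeterMatrix B}
    (cs : CoxeterSystem M W) (c : B → I) (hc : ∀ b b', c b ≠ c b' → M b b' = 2)
    (h : ∀ i, Tree (Subgroup.closure (cs.simple '' {b | c b = i})) inferInstance) (w : W) :
    ∃ P e N : ℕ, 0 < P ∧
      (∀ n, N ≤ n → reflectionLength cs (w ^ (n + P)) = reflectionLength cs (w ^ n) + e) ∧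
      Tendsto (fun n : ℕ => (reflectionLength cs (w ^ n) : ℝ) / n) atTop (𝓝 ((e : ℝ) / P)) := by
  obtain ⟨P, e, N, hP, h1⟩ := parts4 (t_MAIN4 Pool.Agent.K1H68.SR.t_DYER
    (t_QL Pool.Agent.K1H38.SR2.t_QL1) Pool.Agent.K1H1.SR2.t_COS2)
    (Pool.Agent.K1H38.SR2.t_ADD Pool.Agent.K1H68.SR.t_DYER) cs c hc (fun i => (h i).slp) w
  obtain ⟨q, hq⟩ := parts (Pool.Agent.K1H59.SR2.t_MAIN3 Pool.Agent.K1H68.SR.t_DYER
    Pool.Agent.K1H38.SR2.t_SLOPE2 Pool.Agent.K1H1.SR2.t_COS2)
    (Pool.Agent.K1H38.SR2.t_ADD Pool.Agent.K1H68.SR.t_DYER) cs c hc (fun i => (h i).slp) w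
  refine ⟨P, e, N, hP, h1, ?_⟩
  have h2 : (q : ℝ) = (e : ℝ) / P :=
    limit_eq (f := fun n => Pool.Agent.K1H22.SR.rl cs (w ^ n)) hP h1 hq
  rw [← h2]
  exact hq

end Pool.Agent.Results.MP_60edde_al.QuasiLinear
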